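import Pool.Agent.V7H75.EX.Main

/-!
# MP_47df6d_lc: lowness for EX-learning of computable measures versus reals

There is an oracle that is low for EX-learning of reals, but not low for EX-learning of computable
measures: a full negative answer to Q1. The class of measures consists of uniform measures on
cylinders; the oracle is a 1-generic set computable from the halting problem.
-/

set_option autoImplicit false

namespace Pool.Agent.Results.MP_47df6d_lc.LowRealsNotMeasuresH75

open Pool.Agent.V7H75.EX

/-- Some oracle is low for EX-learning of reals but not low for EX-learning of measures. -/
theorem result : ∃ A : ℕ → Bool, LowReals A ∧ ¬ LowMeas A := ⟨A, main⟩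

end Pool.Agent.Results.MP_47df6d_lc.LowRealsNotMeasuresH75
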